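import Pool.Agent.H20.SM.TZ
import Pool.Agent.H36.CRG.IN
import Pool.Agent.H60.CRZ.H2
import Pool.Agent.H66.CRZ.TL
import Pool.Agent.H80.CRG.TR

/-!
Row INz: mean squares of the auxiliary function, special moduli.
-/

set_option autoImplicit false

open NumberField NumberField.InfinitePlace Complex Filter Topology MeasureTheory

namespace Pool.Agent.H86.SMG

open Pool.Agent.H28.RC Pool.Agent.H25.HK Pool.Agent.H37.CV
open Pool.Agent.H65.CRG Pool.Agent.H20.SM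
open Pool.Agent.H65.CRZ (ml Zx)

namespace INz

/-- the mean square of the shifted products between the left line and the line `Re s = 4` -/
theorem in_strip (K : Type) [Field K] [NumberField K] [IsTotallyComplex K] (R ε₁ C₁ B₁ K₀ CL C₂ T : ℝ)
    (q : ℕ) (hfin : (Pr K (qi K q)).Finite) (hB₁ : 0 ≤ B₁) (hC₁ : 0 < C₁) (hC₂ : 1 ≤ C₂)
    (hT : 0 < T)
    (hMS : ∀ (a : ℂ) (u : ℝ), ‖a‖ ≤ R / (2 * Lg K q) →
      ∑ᶠ χ ∈ Pr K (qi K q), ‖Zx χ (sl K R q + u * I + a) *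
          ml (Mo K ε₁ q) (sl K R q) χ.ψ (sl K R q + u * I)‖ ^ 2 ≤
        (C₁ + 1 / (1 + T) ^ B₁ * (1 + |u|) ^ B₁) * nc (qi K q) (qi K q))
    (hTL : ∀ (ι : Type) [Fintype ι] (f : ι → ℂ → ℂ)
      (a b t M : ℝ), a < b → b - a ≤ 4 →
      (∀ i, ∀ s : ℂ, a ≤ s.re → s.re ≤ b → DifferentiableAt ℂ (f i) s) →
      (∀ i, ∃ C B : ℝ, ∀ s : ℂ, a ≤ s.re → s.re ≤ b → ‖f i s‖ ≤ C * (1 + |s.im|) ^ B) →
      (∀ u : ℝ, ∑ i, ‖f i (a + u * I)‖ ^ 2 ≤ M * (1 + |u - t|) ^ B₁) →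
      (∀ u : ℝ, ∑ i, ‖f i (b + u * I)‖ ^ 2 ≤ M * (1 + |u - t|) ^ B₁) →
      ∀ σ : ℝ, a ≤ σ → σ ≤ b → ∑ i, ‖f i (σ + t * I)‖ ^ 2 ≤ K₀ * M)
    (hLF : ∀ χ ∈ Pr K (qi K q),
      IsEnt χ (Zx χ) ∧ LFg (nrComplexPlaces K) CL (cB K (qi K q)) (Zx χ))
    (hCL : 1 ≤ CL) (hA0 : 0 < cB K (qi K q))
    (hL : ∀ χ : RCC K, ∀ s : ℂ, 3 / 2 ≤ s.re → ‖Lc χ s‖ ≤ C₂)
    (hML : ∀ (χ : RCC K) (s : ℂ), 3 / 2 ≤ s.re → ‖ml (Mo K ε₁ q) (sl K R q) χ.ψ s‖ ≤ 1 + C₂)
    (hsl0 : 0 ≤ sl K R q) (hsl1 : sl K R q ≤ 1 / 2) (hρ : R / (2 * Lg K q) ≤ 1 / 2)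
    (a : ℂ) (ha : ‖a‖ ≤ R / (2 * Lg K q)) (x t : ℝ) (hx1 : sl K R q ≤ x) (hx2 : x ≤ 4)
    (ht : |t| ≤ T) :
    ∑ χ ∈ hfin.toFinset, ‖Zx χ (x + t * I + a) *
      ml (Mo K ε₁ q) (sl K R q) χ.ψ (x + t * I)‖ ^ 2 ≤
      K₀ * ((C₁ + 1) * nc (qi K q) (qi K q) +
        (C₂ * (1 + C₂)) ^ 2 * (Pr K (qi K q)).ncard) := by
  classical
  obtain ⟨P, hP⟩ : ∃ P : Finset (RCC K), P = hfin.toFinset := ⟨_, rfl⟩
  have hPm : ∀ χ ∈ P, χ ∈ Pr K (qi K q) := fun χ hχ => by simpa [hP] using hχ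
  have hPc : (P.card : ℝ) = (Pr K (qi K q)).ncard := by
    rw [hP, Set.ncard_eq_toFinset_card _ hfin]
  rw [← hP]
  obtain ⟨M, hM⟩ : ∃ M : ℝ, M = (C₁ + 1) * nc (qi K q) (qi K q) +
      (C₂ * (1 + C₂)) ^ 2 * (Pr K (qi K q)).ncard := ⟨_, rfl⟩
  rw [← hM]
  have hn0 : (0 : ℝ) ≤ nc (qi K q) (qi K q) := Nat.cast_nonneg _
  have hM1 : (C₁ + 1) * (nc (qi K q) (qi K q) : ℝ) ≤ M := by
    rw [hM]
    have : 0 ≤ (C₂ * (1 + C₂)) ^ 2 * ((Pr K (qi K q)).ncard : ℝ) := by positivity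
    linarith
  have hM2 : (C₂ * (1 + C₂)) ^ 2 * ((Pr K (qi K q)).ncard : ℝ) ≤ M := by
    rw [hM]
    have : 0 ≤ (C₁ + 1) * (nc (qi K q) (qi K q) : ℝ) := by positivity
    linarith
  have hM0 : 0 ≤ M := le_trans (by positivity) hM2
  have hare : |a.re| ≤ 1 / 2 := (Complex.abs_re_le_norm a).trans (ha.trans hρ)
  have haim : |a.im| ≤ 1 / 2 := (Complex.abs_im_le_norm a).trans (ha.trans hρ)
  have hare2 := abs_le.1 hare
  have h := hTL {χ // χ ∈ P} (fun χ z => Zx χ.1 (z + a) * ml (Mo K ε₁ q) (sl K R q) χ.1.ψ z)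
    (sl K R q) 4 t M (by linarith) (by linarith) ?_ ?_ ?_ ?_ x hx1 hx2
  · rw [Finset.sum_coe_sort P (fun χ => ‖Zx χ (((x : ℂ) + t * I) + a) *
      ml (Mo K ε₁ q) (sl K R q) χ.ψ (x + t * I)‖ ^ 2)] at h
    exact h
  · intro χ s _ _
    have hZ : Differentiable ℂ (Zx χ.1) := (hLF χ.1 (hPm _ χ.2)).2.diff
    exact ((hZ _).comp s (differentiableAt_id.add_const a)).mul
      (Pool.Agent.H11.CRG.ml_diff _ _ _ s)
  · intro χ
    refine ⟨(3 * cB K (qi K q)) ^ CL *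
      ∑ S ∈ DM K (Mo K ε₁ q), ‖(xw K (Mo K ε₁ q) S : ℂ) * χ.1.ψ (idS S)‖, CL, ?_⟩
    intro s hs1 hs2
    have h1 := (hLF χ.1 (hPm _ χ.2)).2.bd (s + a) (by
      rw [Complex.add_re]
      linarith)
    have h2 := Pool.Agent.H36.CRG.in_ml (Mo K ε₁ q) (sl K R q) χ.1.ψ s (by linarith)
    have h3 : (cB K (qi K q) * (2 + |(s + a).im|)) ^ CL ≤
        (3 * cB K (qi K q)) ^ CL * (1 + |s.im|) ^ CL := by
      rw [← Real.mul_rpow (by positivity) (by positivity)]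
      apply Real.rpow_le_rpow (by positivity) _ (by linarith)
      have h4 : |(s + a).im| ≤ |s.im| + 1 / 2 := by
        rw [Complex.add_im]
        exact (abs_add_le _ _).trans (by linarith)
      have h5 := abs_nonneg s.im
      have h6 : 2 + |(s + a).im| ≤ 3 * (1 + |s.im|) := by linarith
      calc cB K (qi K q) * (2 + |(s + a).im|) ≤ cB K (qi K q) * (3 * (1 + |s.im|)) :=
            mul_le_mul_of_nonneg_left h6 hA0.le
        _ = _ := by ring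
    rw [norm_mul]
    have h7 := mul_le_mul (h1.trans h3) h2 (norm_nonneg _) (by positivity)
    refine h7.trans (le_of_eq ?_)
    ring
  · intro u
    rw [Finset.sum_coe_sort P (fun χ => ‖Zx χ (((sl K R q : ℝ) : ℂ) + u * I + a) *
      ml (Mo K ε₁ q) (sl K R q) χ.ψ ((sl K R q : ℝ) + u * I)‖ ^ 2)]
    have h1 := hMS a u ha
    rw [finsum_mem_eq_finite_toFinset_sum _ hfin, ← hP] at h1
    refine h1.trans ?_
    have h2 : (1 + |u|) ≤ (1 + T) * (1 + |u - t|) := by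
      have h3 : |u| ≤ |t| + |u - t| := by
        have := abs_add_le t (u - t)
        rwa [add_sub_cancel] at this
      have h4 := abs_nonneg (u - t)
      have h5 : 0 ≤ T * |u - t| := mul_nonneg hT.le h4
      linarith
    have h3 : (1 + |u|) ^ B₁ ≤ (1 + T) ^ B₁ * (1 + |u - t|) ^ B₁ := by
      have h4 := abs_nonneg (u - t)
      have h5 := abs_nonneg u
      rw [← Real.mul_rpow (by linarith) (by linarith)]
      exact Real.rpow_le_rpow (by linarith) h2 hB₁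
    have h4 : 1 / (1 + T) ^ B₁ * (1 + |u|) ^ B₁ ≤ (1 + |u - t|) ^ B₁ := by
      have h5 : 0 < (1 + T) ^ B₁ := Real.rpow_pos_of_pos (by linarith) _
      rw [one_div, inv_mul_le_iff₀ h5]
      exact h3
    have h5 : 1 ≤ (1 + |u - t|) ^ B₁ :=
      Real.one_le_rpow (by have := abs_nonneg (u - t); linarith) hB₁
    calc (C₁ + 1 / (1 + T) ^ B₁ * (1 + |u|) ^ B₁) * (nc (qi K q) (qi K q) : ℝ) ≤
        ((C₁ + 1) * (1 + |u - t|) ^ B₁) * (nc (qi K q) (qi K q) : ℝ) := by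
          apply mul_le_mul_of_nonneg_right _ hn0
          nlinarith
      _ = ((C₁ + 1) * (nc (qi K q) (qi K q) : ℝ)) * (1 + |u - t|) ^ B₁ := by ring
      _ ≤ M * (1 + |u - t|) ^ B₁ := mul_le_mul_of_nonneg_right hM1 (by linarith)
  · intro u
    rw [Finset.sum_coe_sort P (fun χ => ‖Zx χ (((4 : ℝ) : ℂ) + u * I + a) *
      ml (Mo K ε₁ q) (sl K R q) χ.ψ ((4 : ℝ) + u * I)‖ ^ 2)]
    have h5 : 1 ≤ (1 + |u - t|) ^ B₁ :=
      Real.one_le_rpow (by have := abs_nonneg (u - t); linarith) hB₁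
    have h1 : ∀ χ ∈ P, ‖Zx χ (((4 : ℝ) : ℂ) + u * I + a) *
        ml (Mo K ε₁ q) (sl K R q) χ.ψ ((4 : ℝ) + u * I)‖ ^ 2 ≤ (C₂ * (1 + C₂)) ^ 2 := by
      intro χ hχ
      have hre1 : (((4 : ℝ) : ℂ) + u * I).re = 4 := by simp
      have hre2 : (((4 : ℝ) : ℂ) + u * I + a).re = 4 + a.re := by simp
      have hE := (hLF χ (hPm _ hχ)).1
      rw [norm_mul, hE.2 _ (by rw [hre2]; linarith)]
      refine pow_le_pow_left₀ (by positivity) ?_ 2
      exact mul_le_mul (hL χ _ (by rw [hre2]; linarith)) (hML χ _ (by rw [hre1]; norm_num))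
        (norm_nonneg _) (by linarith)
    have h2 := Finset.sum_le_card_nsmul P _ _ h1
    rw [nsmul_eq_mul, hPc] at h2
    calc ∑ χ ∈ P, ‖Zx χ (((4 : ℝ) : ℂ) + u * I + a) *
          ml (Mo K ε₁ q) (sl K R q) χ.ψ ((4 : ℝ) + u * I)‖ ^ 2
        ≤ (C₂ * (1 + C₂)) ^ 2 * ((Pr K (qi K q)).ncard : ℝ) := by
          refine h2.trans (le_of_eq (mul_comm _ _))
      _ ≤ M * 1 := by rw [mul_one]; exact hM2
      _ ≤ M * (1 + |u - t|) ^ B₁ := mul_le_mul_of_nonneg_left h5 hM0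

/-- the special moduli are large -/
theorem sp_large {F : Type} [Field F] [NumberField F] {A : ℕ} {x : ℝ} {q : ℕ} (hx : 2 ≤ x)
    (h : Sp F A x q) : Real.sqrt x ≤ q := by
  have h1 : 0 < Real.log x := Real.log_pos (by linarith)
  have h2 : (0 : ℝ) < q.primeFactors.card := (pow_pos h1 A).trans_le h.lo
  have h3 : 0 < q.primeFactors.card := by exact_mod_cast h2
  obtain ⟨p, hp⟩ := Finset.card_pos.1 h3
  refine (h.low p hp).trans ?_
  have h4 := Nat.le_of_dvd (Nat.pos_of_ne_zero (Nat.mem_primeFactors.1 hp).2.2)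
    (Nat.dvd_of_mem_primeFactors hp)
  exact_mod_cast h4

theorem sp_ev (F : Type) [Field F] [NumberField F] (q₀ : ℕ) : ∃ x₀ : ℝ, ∀ (A : ℕ) (x : ℝ) (q : ℕ),
    x₀ ≤ x → Sp F A x q → q₀ ≤ q := by
  refine ⟨max 2 ((q₀ : ℝ) ^ 2), fun A x q hx h => ?_⟩
  have h1 := sp_large ((le_max_left _ _).trans hx) h
  have h2 : (q₀ : ℝ) ≤ Real.sqrt x := by
    have h3 := Real.sqrt_le_sqrt ((le_max_right _ _).trans hx)
    rwa [Real.sqrt_sq (Nat.cast_nonneg _)] at h3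
  exact_mod_cast h2.trans h1

end INz

open INz in
theorem pf_INz (hMS : T_MSz) (hLF : T_LFz) (hFB : T_FBz) (hCQ : T_CQz) (hIE : T_IEq)
    (hPNC : T_PNC) (hNCR : T_NCR) : T_INz := by
  classical
  have _ := hNCR
  intro F _ _ _ _
  obtain ⟨A₀, hMS⟩ := hMS F
  refine ⟨A₀, fun A' N m R ε₁ hA' hm hR hε hε' => ?_⟩
  obtain ⟨C₁, B₁, hC₁, hB₁, hMS⟩ := hMS A' R ε₁ hA' hR hε hε'
  obtain ⟨K₀, hK₀, hTL⟩ := Pool.Agent.H66.CRZ.pf_TL B₁ 4 hB₁ (by norm_num)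
  obtain ⟨CL, qL, hCL, hLF⟩ := hLF F
  obtain ⟨C₃, b₀, hC₃, hb₀, hFB⟩ := hFB F N m R ε₁ hm hR hε hε'
  obtain ⟨C₂, hC₂, hL, hM⟩ := Pool.Agent.H60.CRZ.pf_H2 F
  obtain ⟨c, -, hcV, hcB⟩ := Pool.Agent.H80.CRG.pf_TR (nrComplexPlaces F) N m hm
  obtain ⟨hn, -, c0, hc0, hcq⟩ := hCQ F
  obtain ⟨κ, hκ⟩ : ∃ κ : ℕ → ℝ, κ = fun j => |qm N m j| + 1 := ⟨_, rfl⟩
  obtain ⟨D, hD⟩ : ∃ D : ℝ, D = ((2 * N + 1 : ℕ) : ℝ) * ∑ j ∈ Finset.range (2 * N + 1),
      κ j ^ 2 * ((j.factorial : ℝ) * (2 / R) ^ j) ^ 2 := ⟨_, rfl⟩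
  have hD0 : 0 ≤ D := by
    rw [hD]
    exact mul_nonneg (Nat.cast_nonneg _) (Finset.sum_nonneg fun j _ => by positivity)
  obtain ⟨E, hE⟩ : ∃ E : ℝ, E = 2 * (C₁ + 1) + (C₂ * (1 + C₂)) ^ 2 := ⟨_, rfl⟩
  have hE0 : 0 ≤ E := by
    rw [hE]
    positivity
  have hDE : 0 ≤ D * (K₀ * E) := by positivity
  refine ⟨1 + D * (K₀ * E) + C₃ ^ 2, b₀, by nlinarith [sq_nonneg C₃], hb₀, ?_⟩
  intro b T hb hT
  obtain ⟨B, hB, hBc⟩ := hcB 4 T
  have hTB : 0 < (1 + T) ^ B₁ := Real.rpow_pos_of_pos (by linarith) _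
  obtain ⟨x₁, hq₁⟩ := hMS (1 / (1 + T) ^ B₁) (by positivity)
  obtain ⟨q₂, hq₂⟩ := hFB b (T + 1) hb (by linarith)
  obtain ⟨x₃, hq₃⟩ := hPNC F A' (1 / 2) (by norm_num)
  obtain ⟨q₄, hq₄⟩ : ∃ q₄ : ℕ, ∀ q : ℕ, q₄ ≤ q →
      Real.exp (max 1 (max B (4 * R))) ≤ c0 * q := by
    have h8 : Tendsto (fun q : ℕ => c0 * (q : ℝ)) atTop atTop :=
      tendsto_natCast_atTop_atTop.const_mul_atTop hc0
    exact eventually_atTop.1 (h8.eventually_ge_atTop _)
  obtain ⟨x₅, hx₅⟩ := sp_ev F (max (max q₂ q₄) (max qL 1))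
  refine ⟨max x₁ (max x₃ x₅), fun X q hX hq x t hx1 hx2 ht => ?_⟩
  have hXa : x₁ ≤ X := (le_max_left _ _).trans hX
  have hXb : x₃ ≤ X := ((le_max_left _ _).trans (le_max_right _ _)).trans hX
  have hXc : x₅ ≤ X := ((le_max_right _ _).trans (le_max_right _ _)).trans hX
  have hqq := hx₅ A' X q hXc hq
  have hqb : q₂ ≤ q := le_trans (le_trans (le_max_left _ _) (le_max_left _ _)) hqq
  have hqd : q₄ ≤ q := le_trans (le_trans (le_max_right _ _) (le_max_left _ _)) hqq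
  have hqe : qL ≤ q := le_trans (le_trans (le_max_left _ _) (le_max_right _ _)) hqq
  have hqf : 1 ≤ q := le_trans (le_trans (le_max_right _ _) (le_max_right _ _)) hqq
  have hqr : (1 : ℝ) ≤ q := by exact_mod_cast hqf
  obtain ⟨hfin, -⟩ := hIE F q hq.sq
  have hncard : ((Pr F (qi F q)).ncard : ℝ) = (hfin.toFinset.card : ℝ) := by
    rw [Set.ncard_eq_toFinset_card _ hfin]
  have hnn : (0 : ℝ) ≤ ((Pr F (qi F q)).ncard : ℝ) := Nat.cast_nonneg _
  have hPm : ∀ χ ∈ hfin.toFinset, χ ∈ Pr F (qi F q) := fun χ hχ => by simpa using hχ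
  -- the conductor
  obtain ⟨A, hA⟩ : ∃ A : ℝ, A = cB F (qi F q) := ⟨_, rfl⟩
  have hAq : c0 * q ≤ A := by
    rw [hA, (hcq q hqf).1]
    apply mul_le_mul_of_nonneg_left _ hc0.le
    calc (q : ℝ) = (q : ℝ) ^ 1 := (pow_one _).symm
      _ ≤ (q : ℝ) ^ nrComplexPlaces F := pow_le_pow_right₀ hqr hn
  have hAe : Real.exp (max 1 (max B (4 * R))) ≤ A := (hq₄ q hqd).trans hAq
  have hA0 : 0 < A := (Real.exp_pos _).trans_le hAe
  have hlog : max 1 (max B (4 * R)) ≤ Real.log A := (Real.le_log_iff_exp_le hA0).2 hAe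
  have hlog1 : 1 ≤ Real.log A := (le_max_left _ _).trans hlog
  have hlogB : B ≤ Real.log A := (le_max_left _ _).trans ((le_max_right _ _).trans hlog)
  have hlogR : 4 * R ≤ Real.log A := (le_max_right _ _).trans ((le_max_right _ _).trans hlog)
  have hA2 : 2 ≤ A := by
    have a1 := Real.add_one_le_exp (Real.log A)
    rw [Real.exp_log hA0] at a1
    linarith
  have hLg : Lg F q = 2 * Real.log A := by
    rw [Lg, hA]
  have hLg0 : 0 < Lg F q := by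
    rw [hLg]
    linarith
  have hRL : R / Lg F q ≤ 1 / 8 := by
    rw [div_le_iff₀ hLg0, hLg]
    linarith
  have hRL0 : 0 < R / Lg F q := by positivity
  have hsl : sl F R q = 1 / 2 - R / Lg F q := rfl
  have hρ : R / (2 * Lg F q) = R / Lg F q / 2 := by
    field_simp
  have hρ0 : 0 < R / (2 * Lg F q) := by positivity
  have hMq : 1 ≤ Mo F ε₁ q := by
    rw [Mo]
    refine Real.one_le_rpow ?_ (by linarith)
    rw [(hcq q hqf).2]
    exact one_le_pow₀ hqr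
  rw [finsum_mem_eq_finite_toFinset_sum _ hfin]
  rcases le_total x 4 with hx4 | hx4
  · -- between the lines
    have hML : ∀ (χ : RCC F) (s : ℂ), 3 / 2 ≤ s.re →
        ‖ml (Mo F ε₁ q) (sl F R q) χ.ψ s‖ ≤ 1 + C₂ := by
      intro χ s hs
      have h8 := Pool.Agent.H11.CRG.ml_near (by linarith : (0 : ℝ) ≤ C₂) hM hMq
        (by rw [hsl]; linarith : sl F R q ≤ 1 / 2) χ hs
      have hp1 : (2 : ℝ) ^ (-s.re) ≤ 1 :=
        Real.rpow_le_one_of_one_le_of_nonpos one_le_two (by linarith)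
      have hp0 : (0 : ℝ) < (2 : ℝ) ^ (-s.re) := Real.rpow_pos_of_pos two_pos _
      have h9 : ml (Mo F ε₁ q) (sl F R q) χ.ψ s = 1 + (ml (Mo F ε₁ q) (sl F R q) χ.ψ s - 1) := by
        ring
      rw [h9]
      refine (norm_add_le _ _).trans ?_
      rw [norm_one]
      nlinarith
    have hstrip : ∀ a : ℂ, ‖a‖ = R / (2 * Lg F q) →
        ∑ χ ∈ hfin.toFinset, ‖Zx χ ((x + t * I) + a) *
          ml (Mo F ε₁ q) (sl F R q) χ.ψ (x + t * I)‖ ^ 2 ≤
        K₀ * ((C₁ + 1) * nc (qi F q) (qi F q) +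
          (C₂ * (1 + C₂)) ^ 2 * (Pr F (qi F q)).ncard) := fun a ha =>
      in_strip F R ε₁ C₁ B₁ K₀ CL C₂ T q hfin hB₁ hC₁ hC₂ hT (hq₁ X q hXa hq) hTL
        (hLF q hqe) hCL (by rw [← hA]; exact hA0) (fun χ s hs => (hL χ s hs).1) hML
        (by rw [hsl]; linarith) (by rw [hsl]; linarith) (by rw [hρ]; linarith) a ha.le x t
        hx1 hx4 ht
    obtain ⟨M, hMdef⟩ : ∃ M : ℝ, M = K₀ * ((C₁ + 1) * nc (qi F q) (qi F q) +
          (C₂ * (1 + C₂)) ^ 2 * (Pr F (qi F q)).ncard) := ⟨_, rfl⟩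
    rw [← hMdef] at hstrip
    have hcau := fun j => Pool.Agent.H36.CRG.in_cauchy hfin.toFinset (fun χ => Zx χ)
      (fun χ hχ => (hLF q hqe χ (hPm χ hχ)).2.diff)
      (fun χ => ml (Mo F ε₁ q) (sl F R q) χ.ψ (x + t * I)) (x + t * I) hρ0 hstrip j
    have hre : ((x : ℂ) + t * I).re = x := by simp
    have him : ((x : ℂ) + t * I).im = t := by simp
    have hcomb := Pool.Agent.H36.CRG.in_comb hfin.toFinset (2 * N + 1)
      (fun j => c A j (x + t * I) / ((2 * Real.log A : ℝ) : ℂ) ^ j)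
      (fun j => κ j / (2 * Real.log A) ^ j)
      (fun j χ => iteratedDeriv j (Zx χ) (x + t * I) *
        ml (Mo F ε₁ q) (sl F R q) χ.ψ (x + t * I))
      (fun j => ((j.factorial : ℝ) / (R / (2 * Lg F q)) ^ j) ^ 2 * M) ?_ (fun j _ => hcau j)
    · have e1 : ∀ χ ∈ hfin.toFinset, fz N m R ε₁ q χ (x + t * I) =
          ∑ j ∈ Finset.range (2 * N + 1),
            (c A j (x + t * I) / ((2 * Real.log A : ℝ) : ℂ) ^ j) *
              (iteratedDeriv j (Zx χ) (x + t * I) *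
                ml (Mo F ε₁ q) (sl F R q) χ.ψ (x + t * I)) := by
        intro χ hχ
        have hZd := (hLF q hqe χ (hPm χ hχ)).2.diff
        have h8 := (hcV A (Zx χ) (x + t * I) (by linarith) hZd (by
          rw [hre]
          rw [hsl] at hx1
          linarith)).2.2
        rw [fz, ← hA, h8, Finset.sum_mul]
        refine Finset.sum_congr rfl fun j _ => ?_
        ring
      have e2 : ∑ χ ∈ hfin.toFinset, ‖fz N m R ε₁ q χ (x + t * I)‖ ^ 2 ≤ D * M := by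
        rw [Finset.sum_congr rfl fun χ hχ => by rw [e1 χ hχ]]
        refine hcomb.trans (le_of_eq ?_)
        rw [hD, mul_assoc, Finset.sum_mul]
        congr 1
        refine Finset.sum_congr rfl fun j _ => ?_
        have e3 : κ j / (2 * Real.log A) ^ j * ((j.factorial : ℝ) /
            (R / (2 * Lg F q)) ^ j) = κ j * ((j.factorial : ℝ) * (2 / R) ^ j) := by
          rw [hLg, div_pow, div_pow, mul_pow 2 (2 * Real.log A)]
          have e4 : (2 * Real.log A) ^ j ≠ 0 := by positivity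
          have e5 : R ^ j ≠ 0 := by positivity
          field_simp
        calc (κ j / (2 * Real.log A) ^ j) ^ 2 *
              (((j.factorial : ℝ) / (R / (2 * Lg F q)) ^ j) ^ 2 * M) =
            (κ j / (2 * Real.log A) ^ j * ((j.factorial : ℝ) /
              (R / (2 * Lg F q)) ^ j)) ^ 2 * M := by ring
          _ = _ := by
            rw [e3]
            ring
      have e3 : M ≤ K₀ * (E * (Pr F (qi F q)).ncard) := by
        rw [hMdef]
        apply mul_le_mul_of_nonneg_left _ (by linarith)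
        have h8 := hq₃ X q hXb hq
        have h9 : (nc (qi F q) (qi F q) : ℝ) ≤ 2 * (Pr F (qi F q)).ncard := by linarith
        have h10 : (C₁ + 1) * (nc (qi F q) (qi F q) : ℝ) ≤
            (C₁ + 1) * (2 * (Pr F (qi F q)).ncard) :=
          mul_le_mul_of_nonneg_left h9 (by linarith)
        rw [hE]
        linarith
      calc ∑ χ ∈ hfin.toFinset, ‖fz N m R ε₁ q χ (x + t * I)‖ ^ 2 ≤ D * M := e2
        _ ≤ D * (K₀ * (E * (Pr F (qi F q)).ncard)) := mul_le_mul_of_nonneg_left e3 hD0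
        _ = D * (K₀ * E) * (Pr F (qi F q)).ncard := by ring
        _ ≤ (1 + D * (K₀ * E) + C₃ ^ 2) * (Pr F (qi F q)).ncard := by
          apply mul_le_mul_of_nonneg_right _ hnn
          nlinarith [sq_nonneg C₃]
    · intro j _
      rw [norm_div, norm_pow, Complex.norm_real, Real.norm_eq_abs,
        abs_of_pos (by linarith : (0 : ℝ) < 2 * Real.log A)]
      apply div_le_div_of_nonneg_right _ (by positivity)
      have h8 := hBc A j (x + t * I) hA2 (by rw [hre]; rw [hsl] at hx1; linarith) (by rw [hre]; exact hx4)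
        (by rw [him]; exact ht)
      have h9 : B / Real.log A ≤ 1 := by
        rw [div_le_one (by linarith)]
        exact hlogB
      have h10 : c A j (x + t * I) = (qm N m j : ℂ) + (c A j (x + t * I) - (qm N m j : ℂ)) := by
        ring
      rw [h10, hκ]
      refine (norm_add_le _ _).trans ?_
      rw [Complex.norm_real, Real.norm_eq_abs]
      dsimp only
      linarith
  · -- far to the right
    have h8 : ∀ χ ∈ hfin.toFinset, ‖fz N m R ε₁ q χ (x + t * I)‖ ^ 2 ≤ C₃ ^ 2 := by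
      intro χ hχ
      have hre : ((x : ℂ) + t * I).re = x := by simp
      have him : ((x : ℂ) + t * I).im = t := by simp
      have h9 := (hq₂ q hqb χ (hPm χ hχ) (x + t * I) (by rw [hre]; linarith)
        (by rw [hre]; linarith) (by rw [him]; linarith)).2.1 (by rw [hre]; exact hx4)
      exact pow_le_pow_left₀ (norm_nonneg _) h9 2
    have h9 := Finset.sum_le_card_nsmul _ _ _ h8
    rw [nsmul_eq_mul, ← hncard] at h9
    refine h9.trans ?_
    rw [mul_comm]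
    apply mul_le_mul_of_nonneg_right _ hnn
    linarith

end Pool.Agent.H86.SMG
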