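import Pool.Agent.H20.SM.TP
import Pool.Agent.H61.CRG.H1
import Pool.Agent.H60.CRZ.H2
import Pool.Agent.H66.CRZ.TL
import Pool.Agent.H96.CV.DS

/-!
# A cofinal family of Galois extensions: upper bounds for the `L`-functions of the characters `χ ∘ N`
-/

set_option autoImplicit false

open NumberField NumberField.InfinitePlace Complex Filter Topology

namespace Pool.Agent.H86.SMG

open Pool.Agent.H20.SM Pool.Agent.H28.RC Pool.Agent.H25.HK Pool.Agent.H37.CV
open Pool.Agent.H65.CRG (cB)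
open Pool.Agent.H30.BV (cv)

namespace LBF

theorem c_H1 : Pool.Agent.H65.CRG.T_H1 :=
  Pool.Agent.H61.CRG.h1_core T_HEc_proved c_GW a_EN a_GB a_ZK Pool.Agent.H60.CRZ.pf_H2

/-- the sum over the ideals, by norms -/
theorem lc_eq {F : Type} [Field F] [NumberField F] {r : ℕ} (χ : DirichletCharacter ℂ r) (ρ : RCC F)
    (hρ : ∀ I : Ideal (𝓞 F), ρ.ψ I = χ ((Ideal.absNorm I : ℕ) : ZMod r)) {s : ℂ}
    (hsum : Summable (fun I : NI F => ‖((nm I.1 : ℝ) : ℂ) ^ (-s)‖)) :
    Lc ρ s = Pool.Agent.H30.BV.DS (ac F χ) 0 s := by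
  set f : NI F → ℂ := fun I => ρ.ψ I.1 * (Ideal.absNorm I.1 : ℂ) ^ (-s) with hf
  have hnm : ∀ I : NI F, ((nm I.1 : ℝ) : ℂ) = (Ideal.absNorm I.1 : ℂ) := fun I => by
    unfold nm
    push_cast
    rfl
  have hfs : Summable f := by
    refine Summable.of_norm_bounded hsum fun I => ?_
    rw [hf]
    simp only
    rw [norm_mul, hρ, hnm]
    exact mul_le_of_le_one_left (norm_nonneg _) (DirichletCharacter.norm_le_one χ _)
  have h := hfs.hasSum.tsum_fiberwise (fun I : NI F => Ideal.absNorm I.1)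
  have h2 : (∑' I, f I) = Lc ρ s := rfl
  rw [h2] at h
  rw [← h.tsum_eq]
  unfold Pool.Agent.H30.BV.DS LSeries
  refine tsum_congr fun n => ?_
  rcases Nat.eq_zero_or_pos n with h0 | h0
  · subst h0
    have : IsEmpty ((fun I : NI F => Ideal.absNorm I.1) ⁻¹' {0}) :=
      ⟨fun I => I.1.2 (Ideal.absNorm_eq_zero_iff.1 I.2)⟩
    rw [tsum_empty]
    simp
  · have h3 : ∀ b : ((fun I : NI F => Ideal.absNorm I.1) ⁻¹' {n}),
        f b = cv χ n * (n : ℂ) ^ (-s) := by
      intro b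
      have hb : Ideal.absNorm b.1.1 = n := b.2
      rw [hf]
      simp only
      rw [hρ, hb]
      rfl
    have h4 : Nat.card ((fun I : NI F => Ideal.absNorm I.1) ⁻¹' {n}) =
        {I : Ideal (𝓞 F) | Ideal.absNorm I = n}.ncard := by
      have h5 : {I : Ideal (𝓞 F) | Ideal.absNorm I = n} =
          Subtype.val '' ((fun I : NI F => Ideal.absNorm I.1) ⁻¹' {n}) := by
        ext I
        constructor
        · intro hI
          refine ⟨⟨I, fun h6 => ?_⟩, hI, rfl⟩
          have h7 : Ideal.absNorm I = n := hI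
          rw [h6, Ideal.absNorm_bot] at h7
          omega
        · rintro ⟨J, hJ, rfl⟩
          exact hJ
      rw [h5, Set.ncard_image_of_injective _ Subtype.val_injective]
      rfl
    rw [tsum_congr h3, tsum_const, h4, LSeries.term_of_ne_zero h0.ne', nsmul_eq_mul]
    unfold ac aF
    rw [Complex.cpow_neg]
    push_cast
    rw [pow_zero]
    ring

theorem iter_eq {f : ℕ → ℂ} (hf : ∀ s : ℂ, 1 < s.re → LSeriesSummable f s) (Z : ℂ → ℂ)
    (hZ : ∀ s : ℂ, 1 < s.re → Z s = Pool.Agent.H30.BV.DS f 0 s) (k : ℕ) {s : ℂ} (hs : 1 < s.re) :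
    iteratedDeriv k Z s = (-1) ^ k * Pool.Agent.H30.BV.DS f k s := by
  have hopen : IsOpen {s : ℂ | 1 < s.re} := isOpen_lt continuous_const Complex.continuous_re
  have h0 : iteratedDeriv k Z s = iteratedDeriv k (LSeries f) s := by
    refine Filter.EventuallyEq.iteratedDeriv_eq k ?_
    filter_upwards [hopen.mem_nhds hs] with z hz
    rw [hZ z hz]
    unfold Pool.Agent.H30.BV.DS
    exact LSeries_congr (fun {n} _ => by simp) z
  have habs : LSeries.abscissaOfAbsConv f < s.re := by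
    have h1 : LSeries.abscissaOfAbsConv f ≤ (1 : ℝ) := by
      refine LSeries.abscissaOfAbsConv_le_of_forall_lt_LSeriesSummable fun y hy => ?_
      exact hf y (by simpa using hy)
    exact h1.trans_lt (by exact_mod_cast hs)
  rw [h0, LSeries_iteratedDeriv k habs]
  unfold Pool.Agent.H30.BV.DS
  congr 1
  refine LSeries_congr (fun {n} _ => ?_) s
  clear h0 habs hZ hf
  induction k generalizing f with
  | zero => simp
  | succ k ih =>
    rw [Function.iterate_succ_apply, ih]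
    unfold LSeries.logMul
    rw [← Complex.natCast_log]
    push_cast
    ring

theorem nm_rpow {F : Type} [Field F] [NumberField F] (I : NI F) (s : ℂ) :
    ‖((nm I.1 : ℝ) : ℂ) ^ (-s)‖ = nm I.1 ^ (-s.re) := by
  have h : 0 < nm I.1 := lt_of_lt_of_le one_pos (Pool.Agent.H60.CRZ.one_le_nm I.2)
  rw [Complex.norm_cpow_eq_rpow_re_of_pos h]
  simp

theorem zeta_bd (F : Type) [Field F] [NumberField F] : ∃ C : ℝ, 1 ≤ C ∧ ∀ b : ℝ, 1 < b → b ≤ 2 →
    Summable (fun I : NI F => nm I.1 ^ (-b)) ∧ ∑' I : NI F, nm I.1 ^ (-b) ≤ C / (b - 1) := by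
  obtain ⟨E, -, hE, -, hbd⟩ := a_ZK F
  obtain ⟨C, A, hC⟩ := hbd 2
  refine ⟨max 1 |C|, le_max_left _ _, fun b hb1 hb2 => ?_⟩
  obtain ⟨h1, h2⟩ := hE b (by simpa using hb1)
  have hs : Summable (fun I : NI F => nm I.1 ^ (-b)) := by
    refine h1.congr fun I => ?_
    rw [nm_rpow]
    simp
  refine ⟨hs, ?_⟩
  have h3 : (∑' I : NI F, ((nm I.1 : ℝ) : ℂ) ^ (-(b : ℂ))) =
      ((∑' I : NI F, nm I.1 ^ (-b) : ℝ) : ℂ) := by
    rw [Complex.ofReal_tsum]
    refine tsum_congr fun I => ?_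
    have h : 0 < nm I.1 := lt_of_lt_of_le one_pos (Pool.Agent.H60.CRZ.one_le_nm I.2)
    rw [Complex.ofReal_cpow h.le]
    push_cast
    rfl
  have h4 := hC b (by simp only [Complex.ofReal_re]; rw [abs_of_pos (by linarith)]; exact hb2)
  have hT0 : 0 ≤ ∑' I : NI F, nm I.1 ^ (-b) :=
    tsum_nonneg fun I => Real.rpow_nonneg (by unfold nm; positivity) _
  rw [h2, h3, norm_mul, Complex.norm_real, Real.norm_of_nonneg hT0] at h4
  have h5 : ‖((b : ℂ) - 1)‖ = b - 1 := by
    rw [← Complex.ofReal_one, ← Complex.ofReal_sub, Complex.norm_real,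
      Real.norm_of_nonneg (by linarith)]
  rw [h5] at h4
  simp only [Complex.ofReal_im, abs_zero, add_zero, Real.one_rpow, mul_one] at h4
  rw [le_div_iff₀ (by linarith)]
  calc (∑' I : NI F, nm I.1 ^ (-b)) * (b - 1) = (b - 1) * ∑' I : NI F, nm I.1 ^ (-b) := mul_comm _ _
    _ ≤ C := h4
    _ ≤ |C| := le_abs_self _
    _ ≤ _ := le_max_right _ _

theorem psi_le {F : Type} [Field F] [NumberField F] (ρ : RCC F) (I : Ideal (𝓞 F)) :
    ‖ρ.ψ I‖ ≤ 1 := by
  by_cases h : I ⊔ ρ.f = ⊤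
  · by_cases h0 : I = ⊥
    · rw [h0, ρ.map_bot]
      simp
    · exact (ρ.norm_one I h0 h).le
  · rw [ρ.eq_zero I h]
    simp

theorem lc_bd {F : Type} [Field F] [NumberField F] (ρ : RCC F) {b : ℝ}
    (hs : Summable (fun I : NI F => nm I.1 ^ (-b))) {w : ℂ} (hw : b ≤ w.re) :
    ‖Lc ρ w‖ ≤ ∑' I : NI F, nm I.1 ^ (-b) := by
  unfold Lc
  refine tsum_of_norm_bounded hs.hasSum fun I => ?_
  have h1 : ((Ideal.absNorm I.1 : ℕ) : ℂ) = ((nm I.1 : ℝ) : ℂ) := by
    unfold nm
    push_cast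
    rfl
  have h2 := Pool.Agent.H60.CRZ.one_le_nm I.2
  rw [norm_mul, h1, nm_rpow]
  calc ‖ρ.ψ I.1‖ * nm I.1 ^ (-w.re) ≤ 1 * nm I.1 ^ (-w.re) :=
        mul_le_mul_of_nonneg_right (psi_le ρ I.1) (Real.rpow_nonneg (by linarith) _)
    _ = nm I.1 ^ (-w.re) := one_mul _
    _ ≤ nm I.1 ^ (-b) := Real.rpow_le_rpow_of_exponent_le h2 (by linarith)

/-- the three lines theorem -/
theorem strip (F : Type) [Field F] [NumberField F] [IsTotallyComplex F] (G : ℝ) (hG : 0 ≤ G) :
    ∃ C : ℝ, 1 ≤ C ∧ ∀ (ρ : RCC F) (Z : ℂ → ℂ) (l : ℝ) (w : ℂ), ρ.f ≠ ⊤ → IsEnt ρ Z →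
      1 ≤ cB F ρ.f → 1 ≤ l → 1 - 1 / l ≤ w.re →
      Real.log (cB F ρ.f * (2 + |w.im|)) ≤ G * l → ‖Z w‖ ≤ C * l := by
  obtain ⟨A, hA, hgr⟩ := c_H1 F
  obtain ⟨Cz, hCz, hz⟩ := zeta_bd F
  obtain ⟨K, hK, hTL⟩ := Pool.Agent.H66.CRZ.pf_TL (2 * A) 3 (by linarith) (by norm_num)
  have hsK : 1 ≤ Real.sqrt K := Real.one_le_sqrt.2 hK
  have heG : 1 ≤ Real.exp (A * G) := Real.one_le_exp (by positivity)
  have hC1 : Cz ≤ Real.sqrt K * Cz * Real.exp (A * G) := by
    calc Cz = 1 * Cz * 1 := by ring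
      _ ≤ Real.sqrt K * Cz * Real.exp (A * G) := by gcongr
  refine ⟨Real.sqrt K * Cz * Real.exp (A * G), hCz.trans hC1, ?_⟩
  intro ρ Z l w hf hZ hB hl hw hlog
  have hl0 : 0 < l := by linarith
  have hl1 : 0 < 1 / l := by positivity
  have hl2 : 1 / l ≤ 1 := by
    rw [div_le_one hl0]
    exact hl
  set b : ℝ := 1 + 1 / l with hb
  obtain ⟨hs, hzb⟩ := hz b (by linarith) (by linarith)
  have hzb' : ∑' I : NI F, nm I.1 ^ (-b) ≤ Cz * l := by
    refine hzb.trans (le_of_eq ?_)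
    rw [hb]
    field_simp
    ring
  have hright : ∀ z : ℂ, b ≤ z.re → ‖Z z‖ ≤ Cz * l := by
    intro z hz
    rw [hZ.2 z (by linarith)]
    exact (lc_bd ρ hs hz).trans hzb'
  rcases le_or_gt b w.re with h1 | h1
  · refine (hright w h1).trans ?_
    exact mul_le_mul_of_nonneg_right hC1 hl0.le
  set D : ℝ := cB F ρ.f with hD
  set t : ℝ := w.im with ht
  have hX : 1 ≤ D * (2 + |t|) := by nlinarith [abs_nonneg t]
  set Y : ℝ := (D * (2 + |t|)) ^ (A / 2) with hY
  have hY1 : 1 ≤ Y := Real.one_le_rpow hX (by linarith)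
  have hY0 : 0 < Y := by linarith
  have hlogY : Real.log Y ≤ A / 2 * (G * l) := by
    rw [hY, Real.log_rpow (by linarith)]
    exact mul_le_mul_of_nonneg_left hlog (by linarith)
  have hYn : ∀ z : ℂ, ‖((Y : ℝ) : ℂ) ^ (z - b)‖ = Y ^ (z.re - b) := by
    intro z
    rw [Complex.norm_cpow_eq_rpow_re_of_pos hY0]
    simp
  have hCl : 1 ≤ Cz * l := by
    calc (1 : ℝ) = 1 * 1 := by norm_num
      _ ≤ Cz * l := by gcongr
  have key := hTL Unit (fun _ z => Z z * ((Y : ℝ) : ℂ) ^ (z - b)) (-1) b t ((Cz * l) ^ 2)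
    (by linarith) (by linarith) ?_ ?_ ?_ ?_ w.re (by linarith) h1.le
  · rw [Finset.sum_const, Finset.card_univ, Fintype.card_unit, one_smul] at key
    have hwt : ((w.re : ℂ) + t * I) = w := by
      apply Complex.ext <;> simp [ht]
    rw [hwt, norm_mul, hYn] at key
    have h2 : ‖Z w‖ * Y ^ (w.re - b) ≤ Real.sqrt K * (Cz * l) := by
      have h3 := Real.sqrt_le_sqrt key
      rwa [Real.sqrt_sq (by positivity), Real.sqrt_mul (by linarith),
        Real.sqrt_sq (by positivity)] at h3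
    have h3 : ‖Z w‖ = (‖Z w‖ * Y ^ (w.re - b)) * Y ^ (b - w.re) := by
      rw [mul_assoc, ← Real.rpow_add hY0]
      simp
    have h4 : Y ^ (b - w.re) ≤ Real.exp (A * G) := by
      rw [Real.rpow_def_of_pos hY0, Real.exp_le_exp]
      have h5 : b - w.re ≤ 2 / l := by
        have : (2 : ℝ) / l = 1 / l + 1 / l := by ring
        rw [this, hb]
        linarith
      have h6 : 0 ≤ b - w.re := by linarith
      have h7 : 0 ≤ Real.log Y := Real.log_nonneg hY1
      calc Real.log Y * (b - w.re) ≤ (A / 2 * (G * l)) * (2 / l) :=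
            mul_le_mul hlogY h5 h6 (by positivity)
        _ = A * G := by field_simp
    rw [h3]
    calc ‖Z w‖ * Y ^ (w.re - b) * Y ^ (b - w.re) ≤
        Real.sqrt K * (Cz * l) * Real.exp (A * G) :=
          mul_le_mul h2 h4 (Real.rpow_nonneg hY0.le _) (by positivity)
      _ = Real.sqrt K * Cz * Real.exp (A * G) * l := by ring
  · intro _ z _ _
    refine hZ.1.differentiableAt.mul ?_
    refine DifferentiableAt.const_cpow (by fun_prop) (Or.inl ?_)
    exact_mod_cast hY0.ne'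
  · intro _
    refine ⟨(2 * D) ^ A, A, fun z hz1 hz2 => ?_⟩
    have h2 := hgr ρ hf hB Z hZ z hz1
    rw [norm_mul, hYn, ← Real.mul_rpow (by linarith) (by positivity)]
    calc ‖Z z‖ * Y ^ (z.re - b) ≤ (D * (2 + |z.im|)) ^ A * 1 := by
          refine mul_le_mul h2 ?_ (Real.rpow_nonneg hY0.le _) (Real.rpow_nonneg (by positivity) _)
          exact Real.rpow_le_one_of_one_le_of_nonpos hY1 (by linarith)
      _ = (D * (2 + |z.im|)) ^ A := mul_one _
      _ ≤ (2 * D * (1 + |z.im|)) ^ A := by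
          refine Real.rpow_le_rpow (by positivity) ?_ (by linarith)
          nlinarith [abs_nonneg z.im]
  · intro u
    rw [Finset.sum_const, Finset.card_univ, Fintype.card_unit, one_smul]
    have h2 := hgr ρ hf hB Z hZ (((-1 : ℝ) : ℂ) + u * I) (by simp)
    have h3 : (((-1 : ℝ) : ℂ) + u * I).im = u := by simp
    have h4 : (((-1 : ℝ) : ℂ) + u * I).re = -1 := by simp
    rw [norm_mul, hYn, h4]
    rw [h3] at h2
    have h5 : Y ^ (-1 - b) ≤ (D * (2 + |t|)) ^ (-A) := by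
      calc Y ^ (-1 - b) ≤ Y ^ (-2 : ℝ) := Real.rpow_le_rpow_of_exponent_le hY1 (by linarith)
        _ = _ := by
            rw [hY, ← Real.rpow_mul (by linarith)]
            congr 1
            ring
    have h6 : ‖Z (((-1 : ℝ) : ℂ) + u * I)‖ * Y ^ (-1 - b) ≤ (1 + |u - t|) ^ A := by
      calc ‖Z (((-1 : ℝ) : ℂ) + u * I)‖ * Y ^ (-1 - b) ≤
          (D * (2 + |u|)) ^ A * (D * (2 + |t|)) ^ (-A) :=
            mul_le_mul h2 h5 (Real.rpow_nonneg hY0.le _) (Real.rpow_nonneg (by positivity) _)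
        _ = ((2 + |u|) / (2 + |t|)) ^ A := by
            rw [Real.rpow_neg (by linarith), ← div_eq_mul_inv,
              ← Real.div_rpow (by positivity) (by positivity)]
            congr 1
            have : D ≠ 0 := by linarith
            field_simp
        _ ≤ (1 + |u - t|) ^ A := by
            refine Real.rpow_le_rpow (by positivity) ?_ (by linarith)
            rw [div_le_iff₀ (by positivity)]
            have h7 : |u| ≤ |u - t| + |t| := by
              have := abs_add_le (u - t) t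
              rwa [sub_add_cancel] at this
            nlinarith [abs_nonneg t, abs_nonneg (u - t)]
    have h7 : (1 : ℝ) ≤ 1 + |u - t| := by linarith [abs_nonneg (u - t)]
    calc (‖Z (((-1 : ℝ) : ℂ) + u * I)‖ * Y ^ (-1 - b)) ^ 2 ≤ ((1 + |u - t|) ^ A) ^ 2 := by
          refine pow_le_pow_left₀ ?_ h6 2
          exact mul_nonneg (norm_nonneg _) (Real.rpow_nonneg hY0.le _)
      _ = 1 * (1 + |u - t|) ^ (2 * A) := by
          rw [one_mul, ← Real.rpow_natCast, ← Real.rpow_mul (by linarith)]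
          congr 1
          push_cast
          ring
      _ ≤ (Cz * l) ^ 2 * (1 + |u - t|) ^ (2 * A) := by
          refine mul_le_mul_of_nonneg_right (one_le_pow₀ hCl) ?_
          exact Real.rpow_nonneg (by linarith) _
  · intro u
    rw [Finset.sum_const, Finset.card_univ, Fintype.card_unit, one_smul]
    have h4 : (((b : ℝ) : ℂ) + u * I).re = b := by simp
    have h2 := hright (((b : ℝ) : ℂ) + u * I) (by rw [h4])
    rw [norm_mul, hYn, h4, sub_self, Real.rpow_zero, mul_one]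
    have h7 : (1 : ℝ) ≤ 1 + |u - t| := by linarith [abs_nonneg (u - t)]
    calc ‖Z (((b : ℝ) : ℂ) + u * I)‖ ^ 2 ≤ (Cz * l) ^ 2 := pow_le_pow_left₀ (norm_nonneg _) h2 2
      _ = (Cz * l) ^ 2 * 1 := (mul_one _).symm
      _ ≤ (Cz * l) ^ 2 * (1 + |u - t|) ^ (2 * A) := by
          refine mul_le_mul_of_nonneg_left ?_ (by positivity)
          exact Real.one_le_rpow h7 (by linarith)

/-- the conductor parameter -/
theorem cB_eq (F : Type) [Field F] [NumberField F] [IsTotallyComplex F] (r : ℕ) :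
    cB F (qi F r) = Real.sqrt |(discr F : ℝ)| * ((r : ℝ) / (2 * Real.pi)) ^ nrComplexPlaces F := by
  unfold Pool.Agent.H65.CRG.cB cnd
  rw [Pool.Agent.H96.CV.nm_qi, IsTotallyComplex.finrank, Real.sqrt_mul (abs_nonneg _), pow_mul',
    Real.sqrt_sq (by positivity), div_pow, mul_div_assoc]

theorem seven_le {F : Type} [Field F] [NumberField F] {r : ℕ} (hr : 2 ≤ r) (h : Rok F r) :
    7 ≤ r := by
  obtain ⟨p, hp, hpr⟩ := Nat.exists_prime_and_dvd (show r ≠ 1 by omega)
  have h1 := (h.2 p (Nat.mem_primeFactors.2 ⟨hp, hpr, by omega⟩)).1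
  exact h1.trans (Nat.le_of_dvd (by omega) hpr)

theorem one_le_cB (F : Type) [Field F] [NumberField F] [IsTotallyComplex F] {r : ℕ} (hr : 7 ≤ r) :
    1 ≤ cB F (qi F r) := by
  rw [cB_eq]
  have h1 : 1 ≤ Real.sqrt |(discr F : ℝ)| := Real.one_le_sqrt.2 (Pool.Agent.H96.CV.one_le_discr F)
  have h2 : (1 : ℝ) ≤ (r : ℝ) / (2 * Real.pi) := by
    rw [le_div_iff₀ (by positivity)]
    have h3 := Real.pi_lt_d2
    have h4 : (7 : ℝ) ≤ r := by exact_mod_cast hr
    linarith
  have h3 : (1 : ℝ) ≤ ((r : ℝ) / (2 * Real.pi)) ^ nrComplexPlaces F := one_le_pow₀ h2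
  calc (1 : ℝ) = 1 * 1 := by norm_num
    _ ≤ _ := mul_le_mul h1 h3 (by norm_num) (by linarith)

theorem log_cB (F : Type) [Field F] [NumberField F] [IsTotallyComplex F] {r : ℕ} (hr : 7 ≤ r)
    {l y : ℝ} (hy : 0 ≤ y) (hl1 : 1 ≤ l) (hl : Real.log (r * (2 + y)) ≤ l) :
    Real.log (cB F (qi F r) * (2 + y)) ≤
      (Real.log (Real.sqrt |(discr F : ℝ)|) + nrComplexPlaces F + 1) * l := by
  have h1 : 1 ≤ Real.sqrt |(discr F : ℝ)| := Real.one_le_sqrt.2 (Pool.Agent.H96.CV.one_le_discr F)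
  have h2 : (7 : ℝ) ≤ r := by exact_mod_cast hr
  have h3 : (r : ℝ) / (2 * Real.pi) ≤ r := by
    refine div_le_self (by linarith) ?_
    have := Real.pi_gt_three
    linarith
  have h4 : cB F (qi F r) * (2 + y) ≤
      Real.sqrt |(discr F : ℝ)| * (r : ℝ) ^ nrComplexPlaces F * (r * (2 + y)) := by
    rw [cB_eq]
    have h5 : ((r : ℝ) / (2 * Real.pi)) ^ nrComplexPlaces F ≤ (r : ℝ) ^ nrComplexPlaces F :=
      pow_le_pow_left₀ (by positivity) h3 _
    have h6 : 2 + y ≤ r * (2 + y) := le_mul_of_one_le_left (by linarith) (by linarith)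
    gcongr
  have hr0 : (0 : ℝ) < r := by linarith
  have h5 : Real.log r ≤ l := by
    refine le_trans (Real.log_le_log hr0 ?_) hl
    exact le_mul_of_one_le_right hr0.le (by linarith)
  have hpos : 0 < cB F (qi F r) * (2 + y) := by
    have := one_le_cB F hr
    positivity
  refine (Real.log_le_log hpos h4).trans ?_
  have hy2 : (r : ℝ) * (2 + y) ≠ 0 := by positivity
  rw [Real.log_mul (by positivity) hy2, Real.log_mul (by positivity) (by positivity),
    Real.log_pow]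
  have h6 : Real.log (Real.sqrt |(discr F : ℝ)|) ≤ Real.log (Real.sqrt |(discr F : ℝ)|) * l :=
    le_mul_of_one_le_right (Real.log_nonneg h1) hl1
  have h7 : (nrComplexPlaces F : ℝ) * Real.log r ≤ nrComplexPlaces F * l :=
    mul_le_mul_of_nonneg_left h5 (Nat.cast_nonneg _)
  linarith

end LBF

open LBF in
theorem pf_LBF (hCFF : T_CFF) (hNRC : T_NRC) : T_LBF := by
  intro F _ _ _ k
  have h1 : 1 ≤ Real.sqrt |(discr F : ℝ)| := Real.one_le_sqrt.2 (Pool.Agent.H96.CV.one_le_discr F)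
  have hG : 0 ≤ Real.log (Real.sqrt |(discr F : ℝ)|) + nrComplexPlaces F + 1 := by
    have := Real.log_nonneg h1
    positivity
  obtain ⟨C, hC1, hC⟩ := strip F _ hG
  have hC0 : 0 < C := by linarith
  refine ⟨k.factorial * C, k + 1, by positivity, ?_⟩
  intro r χ s hr hR hχ hs1 hs3
  have hr7 := seven_le hr hR
  obtain ⟨ρ, hρf, hρ⟩ := hNRC F r χ hr hR hχ
  have hft : ρ.f ≠ ⊤ := by
    intro h
    have h2 : nm (qi F r) = 1 := by
      rw [← hρf, h]
      unfold nm
      simp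
    rw [Pool.Agent.H96.CV.nm_qi] at h2
    have h3 : (1 : ℝ) < (r : ℝ) ^ Module.finrank ℚ F :=
      one_lt_pow₀ (by exact_mod_cast (show 1 < r by omega)) Module.finrank_pos.ne'
    linarith
  obtain ⟨Z, -, -, hZ, -⟩ := a_EN F ρ hft
  obtain ⟨E, -, hE, -⟩ := a_ZK F
  have hZD : ∀ z : ℂ, 1 < z.re → Z z = Pool.Agent.H30.BV.DS (ac F χ) 0 z := by
    intro z hz
    rw [hZ.2 z hz]
    exact lc_eq χ ρ hρ (hE z hz).1
  have hsum : ∀ z : ℂ, 1 < z.re → LSeriesSummable (ac F χ) z := by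
    intro z hz
    have h2 := (((hCFF F).2.2 r χ z (by omega) hz).1 0).1
    refine (LSeriesSummable_congr z (fun {n} _ => ?_)).1 h2
    simp
  have hit := iter_eq hsum Z hZD k hs1
  have hDS : ‖Pool.Agent.H30.BV.DS (ac F χ) k s‖ = ‖iteratedDeriv k Z s‖ := by
    rw [hit, norm_mul, norm_pow, norm_neg, norm_one, one_pow, one_mul]
  rw [hDS]
  set l : ℝ := Real.log (r * (|s.im| + 3)) with hl
  have hrR : (7 : ℝ) ≤ r := by exact_mod_cast hr7
  have hx3 : (3 : ℝ) ≤ r * (|s.im| + 3) := by nlinarith [abs_nonneg s.im]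
  have hl1 : 1 ≤ l := by
    have h2 : 1 < Real.log 3 := by
      rw [Real.lt_log_iff_exp_lt (by norm_num)]
      exact Real.exp_one_lt_d9.trans (by norm_num)
    exact h2.le.trans (Real.log_le_log (by norm_num) hx3)
  have hl0 : 0 < l := by linarith
  have hil : 1 / l ≤ 1 := by
    rw [div_le_one hl0]
    exact hl1
  have hsph : ∀ w ∈ Metric.sphere s (1 / l), ‖Z w‖ ≤ C * l := by
    intro w hw
    rw [mem_sphere_iff_norm] at hw
    have hre := Complex.abs_re_le_norm (w - s)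
    have him := Complex.abs_im_le_norm (w - s)
    rw [hw, Complex.sub_re] at hre
    rw [hw, Complex.sub_im] at him
    have h2 := (abs_le.1 hre).1
    have h3 : |w.im| ≤ |s.im| + 1 := by
      have := abs_sub_abs_le_abs_sub w.im s.im
      linarith
    refine hC ρ Z l w hft hZ ?_ hl1 (by linarith) ?_
    · rw [hρf]
      exact one_le_cB F hr7
    · rw [hρf]
      refine log_cB F hr7 (abs_nonneg _) hl1 ?_
      refine Real.log_le_log (by positivity) ?_
      exact mul_le_mul_of_nonneg_left (by linarith) (by linarith)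
  have hmain := Complex.norm_iteratedDeriv_le_of_forall_mem_sphere_norm_le k
    (show 0 < 1 / l by positivity) hZ.1.diffContOnCl hsph
  refine hmain.trans (le_of_eq ?_)
  rw [div_pow, one_pow, pow_succ]
  field_simp

end Pool.Agent.H86.SMG
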