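import Pool.Agent.H20.SM.Targets

/-!
# A cofinal family of Galois extensions: few units modulo `q`
-/

set_option autoImplicit false

open NumberField NumberField.InfinitePlace Complex Filter Topology

namespace Pool.Agent.H86.SMG

open Pool.Agent.H20.SM Pool.Agent.H28.RC Pool.Agent.H25.HK Pool.Agent.H37.CV

/-- the `k`-th power of a unit is `1` modulo `q` -/
lemma u1_pow {F : Type} [Field F] [NumberField F] [IsGalois ℚ F] (hCRT : T_CRT) (q k : ℕ)
    (hq : Sq F q) (hk : ∀ p ∈ q.primeFactors, p - 1 ∣ k) (u : (𝓞 F)ˣ) :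
    (u : 𝓞 F) ^ k - 1 ∈ qi F q := by
  classical
  obtain ⟨h1, -, h3, -, h5, -⟩ := hCRT F q hq
  obtain ⟨hprod, -, -⟩ := h1 (qi F q) le_rfl
  have hinf : (∏ P ∈ pf (qi F q), P.1) = (pf (qi F q)).inf fun P : PrI F => P.1 := by
    have h := IsDedekindDomain.inf_pow_eq_prod_of_prime (pf (qi F q)) (fun P : PrI F => P.1)
      (fun _ => 1) (fun P _ => Ideal.prime_of_isPrime P.2.2 P.2.1)
      (fun P _ Q _ hPQ h => hPQ (Subtype.ext h))
    simpa using h.symm
  rw [hprod, hinf, Submodule.mem_finsetInf]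
  intro P hP
  obtain ⟨p, hp, hpP⟩ := (h3 P).1 hP
  have hnp : np P = p := h5 p hp P hP hpP
  have habs : Ideal.absNorm P.1 = p := by
    have : ((Ideal.absNorm P.1 : ℕ) : ℝ) = (p : ℝ) := hnp
    exact_mod_cast this
  have hmax : P.1.IsMaximal := P.2.1.isMaximal P.2.2
  let _ : Field (𝓞 F ⧸ P.1) := Ideal.Quotient.field P.1
  have hcard : Nat.card (𝓞 F ⧸ P.1) = p := by
    rw [← habs]
    rfl
  have hp1 : p.Prime := Nat.prime_of_mem_primeFactors hp
  have hfin : Finite (𝓞 F ⧸ P.1) := Nat.finite_of_card_ne_zero (by rw [hcard]; exact hp1.ne_zero)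
  let _ : Fintype (𝓞 F ⧸ P.1) := Fintype.ofFinite _
  have hu : Ideal.Quotient.mk P.1 (u : 𝓞 F) ≠ 0 := by
    intro h0
    have hmem : (u : 𝓞 F) ∈ P.1 := Ideal.Quotient.eq_zero_iff_mem.1 h0
    exact hmax.ne_top (Ideal.eq_top_of_isUnit_mem _ hmem u.isUnit)
  have hpow : Ideal.Quotient.mk P.1 (u : 𝓞 F) ^ (p - 1) = 1 := by
    have h := FiniteField.pow_card_sub_one_eq_one (Ideal.Quotient.mk P.1 (u : 𝓞 F)) hu
    rwa [← Nat.card_eq_fintype_card, hcard] at h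
  obtain ⟨j, hj⟩ := hk p hp
  rw [← Ideal.Quotient.eq_zero_iff_mem, map_sub, map_pow, map_one, hj, pow_mul, hpow, one_pow,
    sub_self]

theorem pf_U1 (hCRT : T_CRT) : T_U1 := by
  classical
  intro F _ _ _
  refine ⟨Nat.card (NumberField.Units.torsion F), NumberField.Units.rank F, Nat.card_pos, ?_⟩
  intro q k hq hk1 hk d hd
  set φ : (𝓞 F)ˣ →* (𝓞 F ⧸ d)ˣ := Units.map (Ideal.Quotient.mk d : 𝓞 F →* 𝓞 F ⧸ d) with hφ
  have hφk : ∀ u, φ u ^ k = 1 := by
    intro u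
    ext
    have h := hd (u1_pow hCRT q k hq hk u)
    rw [← Ideal.Quotient.eq_zero_iff_mem, map_sub, map_pow, map_one, sub_eq_zero] at h
    simpa [hφ] using h
  have hφz : ∀ (u : (𝓞 F)ˣ) (e : ℤ), φ u ^ e = φ u ^ (e % (k : ℤ)).toNat := by
    intro u e
    have hk0 : (k : ℤ) ≠ 0 := by omega
    have h0 : 0 ≤ e % (k : ℤ) := Int.emod_nonneg _ hk0
    rw [← zpow_natCast (φ u) (e % (k : ℤ)).toNat, Int.toNat_of_nonneg h0]
    conv_lhs => rw [← Int.emod_add_mul_ediv e k]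
    rw [zpow_add, zpow_mul, zpow_natCast, hφk, one_zpow, mul_one]
  let g : NumberField.Units.torsion F × (Fin (NumberField.Units.rank F) → Fin k) → 𝓞 F ⧸ d :=
    fun x => ((φ (x.1 : (𝓞 F)ˣ) * ∏ i, φ (NumberField.Units.fundSystem F i) ^ (x.2 i : ℕ) :
      (𝓞 F ⧸ d)ˣ) : 𝓞 F ⧸ d)
  have hsub : (Set.range fun u : (𝓞 F)ˣ => Ideal.Quotient.mk d (u : 𝓞 F)) ⊆ Set.range g := by
    rintro _ ⟨u, rfl⟩
    obtain ⟨⟨ζ, e⟩, hu, -⟩ := NumberField.Units.exist_unique_eq_mul_prod F u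
    have hk0 : (k : ℤ) ≠ 0 := by omega
    refine ⟨(ζ, fun i => ⟨(e i % (k : ℤ)).toNat, ?_⟩), ?_⟩
    · have h0 : 0 ≤ e i % (k : ℤ) := Int.emod_nonneg _ hk0
      have h1 : e i % (k : ℤ) < k := Int.emod_lt_of_pos _ (by omega)
      omega
    · have h2 : φ u = φ (ζ : (𝓞 F)ˣ) * ∏ i, φ (NumberField.Units.fundSystem F i) ^
          (e i % (k : ℤ)).toNat := by
        conv_lhs => rw [hu]
        simp only [map_mul, map_prod, map_zpow, hφz]
      show ((φ (ζ : (𝓞 F)ˣ) * ∏ i, φ (NumberField.Units.fundSystem F i) ^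
          (e i % (k : ℤ)).toNat : (𝓞 F ⧸ d)ˣ) : 𝓞 F ⧸ d) = _
      rw [← h2]
      simp [hφ]
  have hfinr : (Set.range g).Finite := Set.finite_range g
  calc uc d ≤ (Set.range g).ncard := Set.ncard_le_ncard hsub hfinr
    _ ≤ Nat.card (NumberField.Units.torsion F × (Fin (NumberField.Units.rank F) → Fin k)) := by
        rw [← Set.image_univ, ← Set.ncard_univ]
        exact Set.ncard_image_le Set.finite_univ
    _ = _ := by
        rw [Nat.card_prod]
        simp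

end Pool.Agent.H86.SMG
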